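import Pool.Agent.E8helper59.PN.Stm

/-!
# Project PN (MP_c15520_co), piece PN1: the norm of the difference body is the worst one (helper9)
-/

set_option autoImplicit false
open Set Topology
open scoped Pointwise

namespace Pool.Agent.E8helper9.PN

open Pool.Agent.E8helper59.PN

theorem t_MONO : S_MONO := by
  intro n k G F hn hG hGs hF hsp
  obtain ⟨hGc, hGv, x0, hx0⟩ := hG
  obtain ⟨hFc, hFv, y0, hy0⟩ := hF
  have hG0 : G ∈ 𝓝 (0 : Fin n → ℝ) := by
    rw [mem_nhds_iff]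
    have h := hGv.combo_interior_self_mem_interior hx0 (hGs x0 (interior_subset hx0))
      (show (0 : ℝ) < 1 / 2 by norm_num) (show (0 : ℝ) ≤ 1 / 2 by norm_num) (by norm_num)
    have h2 : (1 / 2 : ℝ) • x0 + (1 / 2 : ℝ) • (-x0) = 0 := by
      rw [smul_neg, add_neg_cancel]
    rw [h2] at h
    exact ⟨interior G, interior_subset, isOpen_interior, h⟩
  have hF0 : F - F ∈ 𝓝 (0 : Fin n → ℝ) := by
    have hc : Continuous (fun x : Fin n → ℝ => x + y0) := by fun_prop
    have h1 : (fun x : Fin n → ℝ => x + y0) ⁻¹' (interior F) ∈ 𝓝 (0 : Fin n → ℝ) :=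
      (isOpen_interior.preimage hc).mem_nhds (by simpa using hy0)
    refine Filter.mem_of_superset h1 ?_
    intro x hx
    exact ⟨x + y0, interior_subset hx, y0, interior_subset hy0, by simp⟩
  have hbd : BddAbove ((fun p : (Fin n → ℝ) × (Fin n → ℝ) => gauge G (p.1 - p.2)) ''
      (F ×ˢ F)) := by
    refine ((hFc.prod hFc).image ?_).bddAbove
    exact (continuous_gauge hGv hG0).comp (continuous_fst.sub continuous_snd)
  have hD : ∀ a ∈ F, ∀ b ∈ F, gauge G (a - b) ≤ Dm G F := by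
    intro a ha b hb
    exact le_csSup hbd ⟨(a, b), ⟨ha, hb⟩, rfl⟩
  have hDpos : 0 < Dm G F := by
    have hne : Nonempty (Fin n) := ⟨⟨0, hn⟩⟩
    have hnt : Nontrivial (Fin n → ℝ) := inferInstance
    have hnb : (𝓝[≠] y0).NeBot := Module.punctured_nhds_neBot ℝ (Fin n → ℝ) y0
    have hmem : F ∈ 𝓝[≠] y0 := mem_nhdsWithin_of_mem_nhds (mem_interior_iff_mem_nhds.1 hy0)
    obtain ⟨y, hy1, hy2⟩ := hnb.nonempty_of_mem (Filter.inter_mem hmem self_mem_nhdsWithin)
    have hb : Bornology.IsVonNBounded ℝ G := NormedSpace.isVonNBounded_of_isBounded ℝ hGc.isBounded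
    have hp : 0 < gauge G (y - y0) :=
      (gauge_pos (absorbent_nhds_zero hG0) hb).2 (sub_ne_zero.2 hy2)
    exact hp.trans_le (hD y hy1 y0 (interior_subset hy0))
  have h1 : Dm (F - F) F ≤ 1 := by
    refine Real.sSup_le ?_ zero_le_one
    rintro _ ⟨p, ⟨hp1, hp2⟩, rfl⟩
    exact gauge_le_one_of_mem ⟨p.1, hp1, p.2, hp2, rfl⟩
  obtain ⟨A, hA, hc⟩ := hsp
  refine ⟨A, hA, fun i => ?_⟩
  obtain ⟨c, hc1, hc2⟩ := hc i
  have hc3 : c < 1 := hc1.trans_le h1
  have hm : max c 0 < 1 := max_lt hc3 zero_lt_one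
  refine ⟨(max c 0 + 1) / 2 * Dm G F, ?_, ?_⟩
  · have : (max c 0 + 1) / 2 < 1 := by linarith
    calc (max c 0 + 1) / 2 * Dm G F < 1 * Dm G F := by gcongr
      _ = Dm G F := one_mul _
  · intro x hx y hy
    have h3 : gauge (F - F) (x - y) < (max c 0 + 1) / 2 := by
      have h4 := hc2 x hx y hy
      have h5 := le_max_left c 0
      linarith
    obtain ⟨b, hb0, hb1, z, ⟨u, hu, v, hv, rfl⟩, hz⟩ :=
      exists_lt_of_gauge_lt (absorbent_nhds_zero hF0) h3
    have hz' : x - y = b • (u - v) := hz.symm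
    rw [hz', gauge_smul_of_nonneg hb0.le, smul_eq_mul]
    have h6 := hD u hu v hv
    calc b * gauge G (u - v) ≤ b * Dm G F := by gcongr
      _ ≤ (max c 0 + 1) / 2 * Dm G F := by gcongr

end Pool.Agent.E8helper9.PN
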